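import Pool.Agent.WAR.StmtsB
import Pool.Agent.Helper32_WAR.H90_Proj

/-!
# PRJ: from the open surface to the smooth projective surface (squad WAR, Theorem M')
-/

set_option autoImplicit false

namespace Pool.Agent.WAR.H90

open Filter Topology Classical

variable [Par]

attribute [local instance] primesFact

/-- The points of the open surface given by pairs `(P, Q)` of points of a twist with `2 (c P + e Q) = 0`
for some coprime integers `c`, `e`. -/
def CvU (F : Type) [Field F] : Set (XU F) :=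
  {z | ∃ (d : F) (P Q : Pt d) (c e : ℤ), d ≠ 0 ∧ z.1 = kum d P Q ∧ IsCoprime c e ∧
    (sm c P + sm e Q) + (sm c P + sm e Q) = 0}

/-- The same points on the smooth projective surface. -/
def CvX (F : Type) [Field F] : Set (XP Par.a Par.b F) := XU.incl '' CvU F

/-- the points of the projective surface given by points with `OmP` -/
def OmX (F : Type) [NormedField F] : Set (XP Par.a Par.b F) := XU.incl '' {z : XU F | OmP z.1}

theorem omP_of_unP {F : Type} [NormedField F] {z : F × F × F} (hU : OnU z) (h : UnP z) : OmP z :=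
  ⟨[], z, ⟨hU, rfl⟩, h⟩

theorem unP_of_cvU {F : Type} [NormedField F] {ϖ : ℤ} (hF : IsLoc F ϖ) (htwt : TwtStmt) {z : XU F}
    (hz : z ∈ CvU F) : UnP z.1 := by
  have := (locSq_of_isLoc hF).gd
  obtain ⟨d, P, Q, c, e, hd, hk, hce, hT⟩ := hz
  refine ⟨d, P, Q, hd, hk, c, e, sm c P + sm e Q, hce, ?_, ?_⟩
  · exact htwt F (locSq_of_isLoc hF).two d hd _ hT
  · exact Or.inl (sub_self _)

theorem cvX_subset {F : Type} [NormedField F] {ϖ : ℤ} (hF : IsLoc F ϖ) (htwt : TwtStmt) :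
    CvX F ⊆ OmX F := by
  rintro _ ⟨z, hz, rfl⟩
  exact ⟨z, omP_of_unP z.2 (unP_of_cvU hF htwt hz), rfl⟩

theorem closure_omX_of_cyc {F : Type} [NormedField F] [CompleteSpace F] {ϖ : ℤ} (hF : IsLoc F ϖ)
    (hcyu : CyuStmt) (hc : Cyc ϖ.natAbs) (x : XP Par.a Par.b F) : x ∈ closure (OmX F) := by
  have h1 : OmX F = Set.range (XU.incl (F := F)) := by
    apply Set.eq_of_subset_of_subset
    · rintro _ ⟨z, _, rfl⟩
      exact ⟨z, rfl⟩
    · rintro _ ⟨z, rfl⟩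
      exact ⟨z, omP_of_unP z.2 (hcyu F ϖ hF hc z.1 z.2), rfl⟩
  rw [h1]
  exact denseRange_incl (locSq_of_isLoc hF) x

/-- **PRJ**, general form: the component at `p` is in the closure of the points with `OmP`. -/
theorem prj_om (hbfi : BfiStmt) (hblo : BloStmt)
    (S : Set Nat.Primes) (hS : ∀ p ∈ S, GoodP (p : ℕ))
    (x : ∀ p : S, XP Par.a Par.b ℚ_[(p.1 : ℕ)]) (xR : XP Par.a Par.b ℝ)
    (h1 : ∀ p : S, x p ∈ closure (OmX ℚ_[(p.1 : ℕ)])) :
    ((x, xR) : (∀ p : S, XP Par.a Par.b ℚ_[(p.1 : ℕ)]) × XP Par.a Par.b ℝ) ∈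
      closure (Set.range (fun z : XP Par.a Par.b ℚ =>
      (((fun p : S => XP.map (algebraMap ℚ ℚ_[(p.1 : ℕ)]) z), XP.map (algebraMap ℚ ℝ) z) :
        (∀ p : S, XP Par.a Par.b ℚ_[(p.1 : ℕ)]) × XP Par.a Par.b ℝ))) := by
  have hre : LocSq ℝ := locSq_of_isRe ⟨RingEquiv.refl ℝ, fun _ => rfl⟩
  have h2 : xR ∈ closure (Set.range (XU.incl (F := ℝ))) := denseRange_incl hre xR
  have h3 : ((x, xR) : (∀ p : S, XP Par.a Par.b ℚ_[(p.1 : ℕ)]) × XP Par.a Par.b ℝ) ∈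
      closure ((Set.pi Set.univ (fun p : S => OmX ℚ_[(p.1 : ℕ)])) ×ˢ
        (Set.range (XU.incl (F := ℝ)))) := by
    rw [closure_prod_eq, closure_pi_set]
    exact ⟨fun p _ => h1 p, h2⟩
  refine closure_minimal ?_ isClosed_closure h3
  rintro ⟨y, yR⟩ ⟨hy, hyR⟩
  have hy' : ∀ p : S, ∃ z : XU ℚ_[(p.1 : ℕ)], OmP z.1 ∧ XU.incl z = y p := by
    intro p
    obtain ⟨z, hz, h⟩ := hy p (Set.mem_univ p)
    exact ⟨z, hz, h⟩
  choose z hz hzy using hy'
  obtain ⟨zR, hzR⟩ := hyR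
  have hb := hbfi S hS z zR hz
  have hc : Continuous (Prod.map (Pi.map (fun p : S => XU.incl (F := ℚ_[(p.1 : ℕ)])))
      (XU.incl (F := ℝ))) :=
    (Continuous.piMap (fun p => cont_incl)).prodMap cont_incl
  have h4 : Prod.map (Pi.map (fun p : S => XU.incl (F := ℚ_[(p.1 : ℕ)])))
      (XU.incl (F := ℝ)) (z, zR) = (y, yR) := by
    refine Prod.ext ?_ ?_
    · funext p
      exact hzy p
    · exact hzR
  rw [← h4]
  have h5 := image_closure_subset_closure_image hc ⟨_, hb, rfl⟩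
  refine closure_mono ?_ h5
  rintro _ ⟨_, ⟨w, rfl⟩, rfl⟩
  refine ⟨XU.incl w, ?_⟩
  refine Prod.ext ?_ ?_
  · funext p
    exact XU_incl_map _ w
  · exact XU_incl_map _ w

/-- **PRJ** with `UnP` (helper32's form). -/
theorem prj_un (hbfi : BfiStmt) (hblo : BloStmt) (hcyu : CyuStmt)
    (S : Set Nat.Primes) (hS : ∀ p ∈ S, GoodP (p : ℕ))
    (x : ∀ p : S, XP Par.a Par.b ℚ_[(p.1 : ℕ)]) (xR : XP Par.a Par.b ℝ)
    (hx : ∀ p : S, Cyc (p.1 : ℕ) ∨
      x p ∈ closure (XU.incl '' {z : XU ℚ_[(p.1 : ℕ)] | UnP z.1})) :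
    ((x, xR) : (∀ p : S, XP Par.a Par.b ℚ_[(p.1 : ℕ)]) × XP Par.a Par.b ℝ) ∈
      closure (Set.range (fun z : XP Par.a Par.b ℚ =>
      (((fun p : S => XP.map (algebraMap ℚ ℚ_[(p.1 : ℕ)]) z), XP.map (algebraMap ℚ ℝ) z) :
        (∀ p : S, XP Par.a Par.b ℚ_[(p.1 : ℕ)]) × XP Par.a Par.b ℝ))) := by
  refine prj_om hbfi hblo S hS x xR ?_
  intro p
  rcases hx p with h | h
  · refine closure_omX_of_cyc (hblo (p.1 : ℕ) (hS p.1 p.2)) hcyu ?_ (x p)
    rw [Int.natAbs_natCast]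
    exact h
  · refine closure_mono ?_ h
    rintro _ ⟨z, hz, rfl⟩
    exact ⟨z, omP_of_unP z.2 hz, rfl⟩

/-- **PRJ**: the closure of the rational points in the product of the `p`-adic points, `p ∈ S`, and
the real points contains all points whose component at `p` is arbitrary if `Cyc p`, and otherwise
in the closure of `CvX`. -/
theorem prj (hbfi : BfiStmt) (hblo : BloStmt) (hcyu : CyuStmt) (htwt : TwtStmt)
    (S : Set Nat.Primes) (hS : ∀ p ∈ S, GoodP (p : ℕ))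
    (x : ∀ p : S, XP Par.a Par.b ℚ_[(p.1 : ℕ)]) (xR : XP Par.a Par.b ℝ)
    (hx : ∀ p : S, Cyc (p.1 : ℕ) ∨ x p ∈ closure (CvX ℚ_[(p.1 : ℕ)])) :
    ((x, xR) : (∀ p : S, XP Par.a Par.b ℚ_[(p.1 : ℕ)]) × XP Par.a Par.b ℝ) ∈
      closure (Set.range (fun z : XP Par.a Par.b ℚ =>
      (((fun p : S => XP.map (algebraMap ℚ ℚ_[(p.1 : ℕ)]) z), XP.map (algebraMap ℚ ℝ) z) :
        (∀ p : S, XP Par.a Par.b ℚ_[(p.1 : ℕ)]) × XP Par.a Par.b ℝ))) := by
  refine prj_om hbfi hblo S hS x xR ?_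
  intro p
  rcases hx p with h | h
  · refine closure_omX_of_cyc (hblo (p.1 : ℕ) (hS p.1 p.2)) hcyu ?_ (x p)
    rw [Int.natAbs_natCast]
    exact h
  · exact closure_mono (cvX_subset (hblo (p.1 : ℕ) (hS p.1 p.2)) htwt) h

end Pool.Agent.WAR.H90
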